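import Mathlib
import Pool.Agent.Helper36.PolyDefs
import Pool.Agent.Helper36.PolyProof

set_option autoImplicit false

namespace Pool.Agent.Results.MP_61c2aa_co.AllIntegers

open Pool.Agent.Helper36.Poly

/-- For every `r ≥ 1` some subgraph of a hypercube, with at least one edge, has polychromatic
number exactly `r`. -/
theorem result : ∀ r : ℕ, 1 ≤ r → ∃ (k : ℕ) (G : (hypercube k).Subgraph),
    G.edgeSet.Nonempty ∧ HasPolychromaticNumber G.coe r := by
  intro r hr
  refine ⟨r, SimpleGraph.toSubgraph (hook r) (hook_le r), ?_, ?_⟩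
  · have hg : Good (base (⟨0, hr⟩ : Fin r)) ⟨0, hr⟩ := good_base _
    exact ⟨s(_, _), hook_adj hg⟩
  · have h := hook_number hr
    unfold HasPolychromaticNumber at h ⊢
    have he : {s : ℕ | ∀ n : ℕ, 1 ≤ n →
        ∃ χ : (hypercube n).edgeSet → Fin s,
          IsPolychromatic (SimpleGraph.toSubgraph (hook r) (hook_le r)).coe χ} =
        {s : ℕ | ∀ n : ℕ, 1 ≤ n →
        ∃ χ : (hypercube n).edgeSet → Fin s, IsPolychromatic (hook r) χ} := by
      ext s
      simp only [Set.mem_ofPred_eq, isPolychromatic_iso (hookIso r)]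
    rw [he]
    exact h

end Pool.Agent.Results.MP_61c2aa_co.AllIntegers
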